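import Pool.Agent.Helper90.EL.Key
import Pool.Agent.Helper47.EG.Hold

/-!
# Edge weights (MP_a499ba_nt), Liouville: the contradiction, with the choice of `δ`
-/

set_option autoImplicit false
open MeasureTheory Real Set Filter Topology
open Pool.Agent.Helper18.ES (S mu lam bb lam_le)
open Pool.Agent.Helper71.MR (gt gt_nonneg gt_int_pos)
open Pool.Agent.Helper71.MA (sm)
open Pool.Agent.Helper71.LA (Lf CI CI_nonneg)
open Pool.Agent.Helper95.EW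
open Pool.Agent.Helper63.EW (ma ha)

namespace Pool.Agent.Helper90.EL

variable {w : ℝ → ℝ}

/-- **the contradiction** for the Liouville function, with a bound along the sequence only -/
theorem contraL' (h0 : ∀ t ∈ Ico (0:ℝ) 1, 0 ≤ w t) (hw : MonotoneOn w (Ico 0 1))
    (hub : ∀ B : ℝ, ∃ t ∈ Ico (0:ℝ) 1, B < w t) {Cw : ℝ} (hC : ∀ N : ℕ, 1 ≤ N → w (1 - 1 / N) ≤ Cw * √N)
    {σ u₀ K K₁ : ℝ} (hP : Pl σ u₀) (hK0 : 0 ≤ K)
    (hτ : ∀ δ : ℝ, 0 < δ → δ ≤ 1 / 4 → ∃ τ : ℕ → ℝ, ∃ B : ℝ, Tendsto τ atTop atTop ∧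
      (∀ t : ℝ, Tendsto (fun n => sm Lf δ (τ n + t)) atTop (𝓝 (sm Lf δ t))) ∧
      (∀ᶠ n in atTop, ∀ t t' : ℝ, |t| ≤ 2 → |t - t'| ≤ 1 → |sm Lf δ (τ n + t)| ≤ B ∧
        |sm Lf δ (τ n + t) - sm Lf δ (τ n + t')| ≤ B * |t - t'|) ∧
      (∀ᶠ n in atTop, ∀ x ≤ τ n + u₀, Real.exp ((x - (τ n + u₀)) / 2) * (σ * ha lam δ x) ≤ K * ∫ u, gt δ u) ∧
      (∀ᶠ n in atTop, IntegrableOn (Dl (ha lam δ) w (τ n + u₀)) (Ioi 0) ∧
        σ * ∫ l in Ioi (0:ℝ), Dl (ha lam δ) w (τ n + u₀) l ≤ K₁ * ∫ u, gt δ u)) : False := by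
  obtain ⟨CH, hCH, hH⟩ := Pool.Agent.Helper47.EG.II_hold
  obtain ⟨C₃, hC₃, hpl⟩ := sm_pl
  have hu₀ : 0 ≤ u₀ ∧ Real.exp u₀ ≤ 2 := by
    rcases hP with ⟨-, rfl⟩ | ⟨-, rfl⟩
    · rw [Real.exp_zero]
      norm_num
    · exact ⟨Real.log_nonneg (by norm_num), (Real.exp_log two_pos).le⟩
  have hwh := h0 _ half_mem
  set Wh := w (Real.exp (-(1 / 2))) with hWh
  set I₀ := ∫ t in Ico (0:ℝ) 1, w t with hI₀
  set R := 2 * (K₁ + Wh * (1 + CI + |bb| + K + C₃) + 2 * |bb| * I₀) + Wh with hR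
  -- one `δ`
  have key : ∀ δ : ℝ, 0 < δ → δ ≤ 1 / 4 → ∀ D q : ℝ,
      (∀ a : ℝ, Real.exp (-(1 / 2)) ≤ a → a < 1 → |Yy δ u₀ a| ≤ D * (1 - a) ^ q * ∫ u, gt δ u) →
      IntegrableOn (fun l => (1 - Ac w l) ^ q) (Ioi (0:ℝ)) →
      w (Real.exp (-(2 * δ))) ≤ R + 2 * D * ∫ l in Nr w, (1 - Ac w l) ^ q := by
    intro δ hδ hδ4 D q hY hq
    have hδ1 : δ ≤ 1 := by linarith
    obtain ⟨τ, B, hτ0, hlim, hbd, hfar, hint⟩ := hτ δ hδ hδ4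
    have hI : 0 < ∫ u, gt δ u := gt_int_pos hδ
    have h1 := keyL h0 hw hub hC hP hK0 hδ hδ1 hτ0 hlim hbd hfar hint
    have h2 := spikeL hCH hH hP hδ hδ4 h0 hw hub hC hY hq
    have h3 := mul_le_mul_of_nonneg_left (hpl σ u₀ δ hP hδ1) hwh
    rw [← hWh, ← hI₀] at h1 h2
    have h4 : (1 / 2 * (w (Real.exp (-(2 * δ))) - Wh) - |bb| * I₀ - D * ∫ l in Nr w, (1 - Ac w l) ^ q) *
        (∫ u, gt δ u) ≤ (K₁ + Wh * (1 + CI + |bb| + K) + |bb| * I₀ + Wh * C₃) * ∫ u, gt δ u := by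
      have h5 : Wh * (C₃ * ∫ u, gt δ u) = Wh * C₃ * ∫ u, gt δ u := by ring
      rw [h5] at h3
      calc _ ≤ (K₁ + Wh * (1 + CI + |bb| + K) + |bb| * I₀) * (∫ u, gt δ u) + Wh * |sm Lf δ u₀| := h2.trans h1
        _ ≤ (K₁ + Wh * (1 + CI + |bb| + K) + |bb| * I₀) * (∫ u, gt δ u) + Wh * C₃ * ∫ u, gt δ u :=
            add_le_add le_rfl h3
        _ = _ := by ring
    have h5 := le_of_mul_le_mul_right h4 hI
    rw [hR]
    linarith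
  rcases pick hw hub with hA | hB
  · -- the gap to the power `3/8` is integrable
    set J := ∫ l in Nr w, (1 - Ac w l) ^ (3 / 8 : ℝ) with hJ
    obtain ⟨t, ht, htR⟩ := hub (R + 2 * (2 * CH) * J)
    have h1t : 0 < 1 - t := by linarith [ht.2]
    set δ := min (1 / 4) ((1 - t) / 2) with hδdef
    have hδ0 : 0 < δ := lt_min (by norm_num) (by linarith)
    have hδ4 : δ ≤ 1 / 4 := min_le_left _ _
    have hδt : t ≤ Real.exp (-(2 * δ)) := by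
      have h1 := Real.add_one_le_exp (-(2 * δ))
      have h2 : δ ≤ (1 - t) / 2 := min_le_right _ _
      linarith
    have h2 : Real.exp (-(2 * δ)) ∈ Ico (0:ℝ) 1 := ⟨(Real.exp_pos _).le, Real.exp_lt_one_iff.mpr (by linarith)⟩
    have h3 := hw ht h2 hδt
    have h4 := key δ hδ0 hδ4 (2 * CH) (3 / 8) (fun a ha ha1 => Y_one hCH hH hu₀.1 hu₀.2 hδ4 ha ha1) hA
    linarith
  · -- the weight is large at `δ`
    set J := ∫ l in Nr w, (1 - Ac w l) ^ (5 / 8 : ℝ) with hJ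
    have hJ0 : 0 ≤ J := by
      rw [hJ]
      refine integral_nonneg fun l => Real.rpow_nonneg ?_ _
      have := Ac_lt_one hub l
      linarith
    set Q := 2 * (64 * CH) * J with hQ
    have hQ0 : 0 ≤ Q := by positivity
    set Z := Q + |R| + 1 with hZ
    have hZ1 : 1 ≤ Z := by
      have := abs_nonneg R
      linarith
    have hZ0 : 0 < Z := by linarith
    obtain ⟨δ, hδ0, hδ1, hδw⟩ := hB (min (1 / 4) (Z ^ (-12 : ℝ))) (lt_min (by norm_num) (Real.rpow_pos_of_pos hZ0 _))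
    have hδ4 : δ ≤ 1 / 4 := hδ1.trans (min_le_left _ _)
    have hδZ : δ ≤ Z ^ (-12 : ℝ) := hδ1.trans (min_le_right _ _)
    have h4 := key δ hδ0 hδ4 (64 * CH * δ ^ (-(1 / 4) : ℝ)) (5 / 8) (fun a ha ha1 => by
      refine (Y_bd hCH hH hu₀.1 hu₀.2 hδ0 hδ4 ha ha1).trans (le_of_eq ?_)
      ring) (gap_int5 h0 hw hub hC)
    rw [← hJ] at h4
    have h5 : 1 ≤ δ ^ (-(1 / 4) : ℝ) := Real.one_le_rpow_of_pos_of_le_one_of_nonpos hδ0 (by linarith) (by norm_num)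
    have h6 : Z ≤ δ ^ (-(1 / 12) : ℝ) := by
      have h7 : (Z ^ (-12 : ℝ)) ^ (-(1 / 12) : ℝ) ≤ δ ^ (-(1 / 12) : ℝ) :=
        Real.rpow_le_rpow_of_nonpos hδ0 hδZ (by norm_num)
      rwa [← Real.rpow_mul hZ0.le, show (-12 : ℝ) * (-(1 / 12)) = 1 by norm_num, Real.rpow_one] at h7
    have h7 : δ ^ (-(1 / 3) : ℝ) = δ ^ (-(1 / 4) : ℝ) * δ ^ (-(1 / 12) : ℝ) := by
      rw [← Real.rpow_add hδ0]
      norm_num
    have h8 : δ ^ (-(1 / 4) : ℝ) * Z ≤ δ ^ (-(1 / 3) : ℝ) := by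
      rw [h7]
      exact mul_le_mul_of_nonneg_left h6 (by linarith)
    have h9 : δ ^ (-(1 / 4) : ℝ) * Z = Q * δ ^ (-(1 / 4) : ℝ) + (|R| + 1) * δ ^ (-(1 / 4) : ℝ) := by
      rw [hZ]
      ring
    have h10 : |R| + 1 ≤ (|R| + 1) * δ ^ (-(1 / 4) : ℝ) := le_mul_of_one_le_right (by positivity) h5
    have h11 : 2 * (64 * CH * δ ^ (-(1 / 4) : ℝ)) * J = Q * δ ^ (-(1 / 4) : ℝ) := by
      rw [hQ]
      ring
    have h12 := le_abs_self R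
    linarith

end Pool.Agent.Helper90.EL
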