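import Pool.Agent.Helper95.EW.Lay

/-!
# Edge weights (MP_a499ba_nt), Liouville: powers of the gap `1 - Ac`
-/

set_option autoImplicit false
open MeasureTheory Real Set Filter Topology
open Pool.Agent.Helper95.EW (Ac Ac_meas Ac_nonneg Ac_lt_one lt_w_of_lt w_bd)

namespace Pool.Agent.Helper90.EL

variable {w : ℝ → ℝ}

/-- powers of the gap are integrable if the gap decays -/
theorem gap_pow_int (hub : ∀ B : ℝ, ∃ t ∈ Ico (0:ℝ) 1, B < w t) {M Λ p q : ℝ} (hM : 0 ≤ M) (hΛ : 0 < Λ) (hq : 0 < q)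
    (hpq : 1 < p * q) (h : ∀ lam, Λ ≤ lam → 1 - Ac w lam ≤ M * lam ^ (-p)) :
    IntegrableOn (fun lam => (1 - Ac w lam) ^ q) (Ioi (0:ℝ)) := by
  have hm : Measurable fun lam => (1 - Ac w lam) ^ q := (measurable_const.sub (Ac_meas hub)).pow_const q
  have h1 : ∀ lam, 0 ≤ 1 - Ac w lam := fun lam => by
    have := Ac_lt_one hub lam
    linarith
  have h2 : ∀ lam, 1 - Ac w lam ≤ 1 := fun lam => by
    have := Ac_nonneg w lam
    linarith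
  rw [← Ioc_union_Ioi_eq_Ioi hΛ.le]
  refine IntegrableOn.union ?_ ?_
  · refine Measure.integrableOn_of_bounded (M := 1) (by simp) hm.aestronglyMeasurable ?_
    filter_upwards with lam
    rw [Real.norm_of_nonneg (Real.rpow_nonneg (h1 _) _)]
    exact Real.rpow_le_one (h1 _) (h2 _) hq.le
  · have h3 : IntegrableOn (fun lam : ℝ => M ^ q * lam ^ (-(p * q))) (Ioi Λ) :=
      (integrableOn_Ioi_rpow_of_lt (by linarith) hΛ).const_mul _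
    refine h3.mono' hm.aestronglyMeasurable ?_
    filter_upwards [ae_restrict_mem measurableSet_Ioi] with lam hlam
    have hl : 0 < lam := hΛ.trans hlam
    rw [Real.norm_of_nonneg (Real.rpow_nonneg (h1 _) _)]
    calc (1 - Ac w lam) ^ q ≤ (M * lam ^ (-p)) ^ q := Real.rpow_le_rpow (h1 _) (h lam (le_of_lt hlam)) hq.le
      _ = M ^ q * lam ^ (-(p * q)) := by
        rw [Real.mul_rpow hM (Real.rpow_nonneg hl.le _), ← Real.rpow_mul hl.le]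
        congr 2
        ring

/-- the gap for a weight of order `(1 - t)^(-1/2)` -/
theorem gap_two (h0 : ∀ t ∈ Ico (0:ℝ) 1, 0 ≤ w t) (hw : MonotoneOn w (Ico 0 1))
    (hub : ∀ B : ℝ, ∃ t ∈ Ico (0:ℝ) 1, B < w t) {C : ℝ} (hC : ∀ N : ℕ, 1 ≤ N → w (1 - 1 / N) ≤ C * √N) {lam : ℝ}
    (hl : 0 < lam) : 1 - Ac w lam ≤ 4 * C ^ 2 * lam ^ (-2 : ℝ) := by
  have key : ∀ t, Ac w lam < t → t < 1 → 1 - t ≤ 4 * C ^ 2 * lam ^ (-2 : ℝ) := by
    intro t h1 h2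
    have h3 := lt_w_of_lt hw hub h1 h2
    have h4 := w_bd h0 hw hC (t := t) ⟨(Ac_nonneg w lam).trans h1.le, h2⟩
    have h5 : 0 < 1 - t := by linarith
    have h6 : lam * √(1 - t) ≤ 2 * C := by
      have := h3.le.trans h4
      rwa [le_div_iff₀ (Real.sqrt_pos.2 h5)] at this
    have h7 : (lam * √(1 - t)) ^ 2 ≤ (2 * C) ^ 2 := pow_le_pow_left₀ (by positivity) h6 2
    rw [mul_pow, Real.sq_sqrt h5.le] at h7
    have h8 : lam ^ (-2 : ℝ) = (lam ^ 2)⁻¹ := by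
      rw [Real.rpow_neg hl.le]
      norm_cast
    rw [h8, ← div_eq_mul_inv, le_div_iff₀ (by positivity)]
    linarith
  refine le_of_forall_pos_le_add fun e he => ?_
  have h1 := Ac_lt_one hub lam
  have h2 : Ac w lam < min ((Ac w lam + 1) / 2) (Ac w lam + e) := lt_min (by linarith) (by linarith)
  have h3 : min ((Ac w lam + 1) / 2) (Ac w lam + e) < 1 := (min_le_left _ _).trans_lt (by linarith)
  have h4 := key _ h2 h3
  have h5 : min ((Ac w lam + 1) / 2) (Ac w lam + e) ≤ Ac w lam + e := min_le_right _ _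
  linarith

/-- the gap for a weight of order `(1 - t)^(-1/3)` -/
theorem gap_three (hw : MonotoneOn w (Ico 0 1)) (hub : ∀ B : ℝ, ∃ t ∈ Ico (0:ℝ) 1, B < w t) {δ₀ : ℝ} (hδ₀ : 0 < δ₀)
    (h : ∀ δ, 0 < δ → δ ≤ δ₀ → w (Real.exp (-(2 * δ))) ≤ δ ^ (-(1 / 3) : ℝ)) {lam : ℝ} (hl : δ₀ ^ (-(1 / 3) : ℝ) ≤ lam) :
    1 - Ac w lam ≤ 2 * lam ^ (-3 : ℝ) := by
  have hl0 : 0 < lam := (Real.rpow_pos_of_pos hδ₀ _).trans_le hl
  have hd0 : 0 < lam ^ (-3 : ℝ) := Real.rpow_pos_of_pos hl0 _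
  have hd1 : lam ^ (-3 : ℝ) ≤ δ₀ := by
    have h1 : lam ^ (-3 : ℝ) ≤ (δ₀ ^ (-(1 / 3) : ℝ)) ^ (-3 : ℝ) :=
      Real.rpow_le_rpow_of_nonpos (Real.rpow_pos_of_pos hδ₀ _) hl (by norm_num)
    rw [← Real.rpow_mul hδ₀.le, show (-(1 / 3) : ℝ) * (-3) = 1 by norm_num, Real.rpow_one] at h1
    exact h1
  have h2 := h _ hd0 hd1
  have h3 : (lam ^ (-3 : ℝ)) ^ (-(1 / 3) : ℝ) = lam := by
    rw [← Real.rpow_mul hl0.le, show (-3 : ℝ) * (-(1 / 3)) = 1 by norm_num, Real.rpow_one]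
  rw [h3] at h2
  have h4 : Real.exp (-(2 * lam ^ (-3 : ℝ))) ≤ Ac w lam := by
    by_contra hc
    push Not at hc
    have h5 := lt_w_of_lt hw hub hc (Real.exp_lt_one_iff.mpr (by linarith))
    linarith
  have h5 := Real.add_one_le_exp (-(2 * lam ^ (-3 : ℝ)))
  linarith

/-- the two cases for the choice of `δ` -/
theorem pick (hw : MonotoneOn w (Ico 0 1)) (hub : ∀ B : ℝ, ∃ t ∈ Ico (0:ℝ) 1, B < w t) :
    IntegrableOn (fun lam => (1 - Ac w lam) ^ (3 / 8 : ℝ)) (Ioi (0:ℝ)) ∨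
      ∀ δ₀ : ℝ, 0 < δ₀ → ∃ δ, 0 < δ ∧ δ ≤ δ₀ ∧ δ ^ (-(1 / 3) : ℝ) < w (Real.exp (-(2 * δ))) := by
  by_cases hc : ∃ δ₀ : ℝ, 0 < δ₀ ∧ ∀ δ, 0 < δ → δ ≤ δ₀ → w (Real.exp (-(2 * δ))) ≤ δ ^ (-(1 / 3) : ℝ)
  · left
    obtain ⟨δ₀, hδ₀, h⟩ := hc
    exact gap_pow_int hub (M := 2) (Λ := δ₀ ^ (-(1 / 3) : ℝ)) (p := 3) (by norm_num) (Real.rpow_pos_of_pos hδ₀ _)
      (by norm_num) (by norm_num) fun lam hlam => gap_three hw hub hδ₀ h hlam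
  · right
    push Not at hc
    intro δ₀ hδ₀
    obtain ⟨δ, h1, h2, h3⟩ := hc δ₀ hδ₀
    exact ⟨δ, h1, h2, h3⟩

theorem gap_int5 (h0 : ∀ t ∈ Ico (0:ℝ) 1, 0 ≤ w t) (hw : MonotoneOn w (Ico 0 1))
    (hub : ∀ B : ℝ, ∃ t ∈ Ico (0:ℝ) 1, B < w t) {C : ℝ} (hC : ∀ N : ℕ, 1 ≤ N → w (1 - 1 / N) ≤ C * √N) :
    IntegrableOn (fun lam => (1 - Ac w lam) ^ (5 / 8 : ℝ)) (Ioi (0:ℝ)) :=
  gap_pow_int hub (M := 4 * C ^ 2) (Λ := 1) (p := 2) (by positivity) one_pos (by norm_num) (by norm_num)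
    fun _ hlam => gap_two h0 hw hub hC (one_pos.trans_le hlam)

end Pool.Agent.Helper90.EL
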