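import Pool.Agent.Helper90.EL.Spk
import Pool.Agent.Helper63.EW.Ua
import Pool.Agent.Helper47.EG.Far

/-!
# Edge weights (MP_a499ba_nt), Liouville: the limit at the return times
-/

set_option autoImplicit false
open MeasureTheory Real Set Filter Topology
open Pool.Agent.Helper18.ES (S mu lam bb lam_le)
open Pool.Agent.Helper71.MR (gt gt_nonneg gt_zero gt_integrable gt_cont gt_le_one gt_lip gt_int_pos)
open Pool.Agent.Helper71.MA (sm Sys gt_int sm_cont sm_bd_wt sm_lip_wt)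
open Pool.Agent.Helper71.LA (Lf II II_cont sys CI CI_nonneg IIexp_le)
open Pool.Agent.Helper95.EW
open Pool.Agent.Helper63.EW (ma ha ma_int AA)
open Pool.Agent.Helper47.EG (far')

namespace Pool.Agent.Helper90.EL

variable {w : ℝ → ℝ}

/-- the dual part -/
noncomputable def e0 (t : ℝ) : ℝ := (-1 - II (Real.exp t)) * Real.exp (-t / 2)

lemma e0_cont : Continuous e0 := (continuous_const.sub IIexp_cont).mul (by fun_prop)

lemma e0_bd {t : ℝ} (ht : 0 ≤ t) : |e0 t| ≤ (1 + CI) * Real.exp (-t / 2) := by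
  unfold e0
  rw [abs_mul, abs_of_pos (Real.exp_pos _)]
  refine mul_le_mul_of_nonneg_right ?_ (Real.exp_pos _).le
  have h1 := IIexp_le t
  have hC := CI_nonneg
  have e1 : Real.exp (-t / 4) ≤ 1 := Real.exp_le_one_iff.mpr (by linarith)
  refine (abs_sub _ _).trans ?_
  rw [abs_neg, abs_one]
  nlinarith

lemma Lf_eq (t : ℝ) : Lf t = ma lam t + e0 t - bb := by
  have h : ma lam t = S lam (Real.exp t) * Real.exp (-t / 2) := rfl
  rw [h]
  unfold Lf e0
  ring

/-- the smoothed dual part -/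
noncomputable def R0 (δ y : ℝ) : ℝ := ∫ u : ℝ, e0 (y + u) * gt δ u

lemma R0_int (δ y s : ℝ) : Integrable fun u : ℝ => e0 (y + u) * gt δ (u - s) :=
  gtc (e0_cont.comp (continuous_const.add continuous_id)) δ s

lemma R0_int0 (δ y : ℝ) : Integrable fun u : ℝ => e0 (y + u) * gt δ u := by
  have := R0_int δ y 0
  simpa using this

lemma ha_eq (δ y : ℝ) : ha lam δ y = sm Lf δ y - R0 δ y + bb * ∫ u, gt δ u := by
  have h1 : sm Lf δ y = ha lam δ y + R0 δ y - bb * ∫ u, gt δ u := by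
    unfold sm ha R0
    have i1 : Integrable fun u : ℝ => ma lam (y + u) * gt δ u + e0 (y + u) * gt δ u :=
      (ma_int lam_le δ y).add (R0_int0 δ y)
    rw [← integral_const_mul, ← integral_add (ma_int lam_le δ y) (R0_int0 δ y), ← integral_sub
      i1 ((gt_integrable δ).const_mul _)]
    refine integral_congr_ae (Eventually.of_forall fun u => ?_)
    simp only
    rw [Lf_eq]
    ring
  linarith

lemma gt_int_le {δ : ℝ} (hδ : δ ≤ 1) : ∫ u, gt δ u ≤ 1 := by
  have h1 : ∫ u, gt δ u ≤ ∫ u, (Icc (0:ℝ) 1).indicator (fun _ => (1:ℝ)) u := by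
    refine integral_mono (gt_integrable δ) ?_ fun u => ?_
    · rw [integrable_indicator_iff measurableSet_Icc]
      exact integrableOn_const (by simp)
    · show gt δ u ≤ (Icc (0:ℝ) 1).indicator (fun _ => (1:ℝ)) u
      rw [Set.indicator_apply]
      split_ifs with h
      · exact gt_le_one hδ u
      · rw [gt_zero]
        by_contra hc
        push Not at hc
        exact h ⟨hc.1.le, hc.2.le.trans hδ⟩
  rw [integral_indicator measurableSet_Icc, setIntegral_const, smul_eq_mul, Real.volume_real_Icc_of_le (by norm_num)] at h1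
  linarith

lemma R0_bd {δ y : ℝ} (hy : 0 ≤ y) : |R0 δ y| ≤ (1 + CI) * Real.exp (-y / 2) * ∫ u, gt δ u := by
  have hC := CI_nonneg
  unfold R0
  rw [← integral_const_mul, ← Real.norm_eq_abs]
  apply norm_integral_le_of_norm_le ((gt_integrable δ).const_mul _)
  filter_upwards with u
  rw [norm_mul, Real.norm_eq_abs, Real.norm_of_nonneg (gt_nonneg _ _)]
  rcases le_or_gt u 0 with h | h
  · rw [gt_zero (Or.inl h)]
    simp
  apply mul_le_mul_of_nonneg_right _ (gt_nonneg δ u)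
  refine (e0_bd (by linarith)).trans (mul_le_mul_of_nonneg_left (Real.exp_le_exp.mpr (by linarith)) (by linarith))

lemma R0_lip {δ : ℝ} (hδ1 : δ ≤ 1) {y t : ℝ} (hy : 1 ≤ y) (ht : -(1 / 2) ≤ t) (ht0 : t ≤ 0) :
    |R0 δ y - R0 δ (y + t)| ≤ 2 * (1 + CI) * Real.exp (-y / 2) * |t| := by
  have hC := CI_nonneg
  have h1 : R0 δ (y + t) = ∫ v : ℝ, e0 (y + v) * gt δ (v - t) := by
    unfold R0
    rw [← integral_sub_right_eq_self (fun u : ℝ => e0 (y + t + u) * gt δ u) t]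
    refine integral_congr_ae (Eventually.of_forall fun v => ?_)
    simp only
    rw [show y + t + (v - t) = y + v by ring]
  rw [h1, R0, ← integral_sub (R0_int0 δ y) (R0_int δ y t), ← Real.norm_eq_abs]
  have hb : ∀ v : ℝ, ‖e0 (y + v) * gt δ v - e0 (y + v) * gt δ (v - t)‖ ≤
      (Icc (-(1 / 2) : ℝ) 1).indicator (fun _ => 4 / 3 * (1 + CI) * Real.exp (-y / 2) * |t|) v := by
    intro v
    rw [Set.indicator_apply]
    split_ifs with hv
    · rw [← mul_sub, norm_mul, Real.norm_eq_abs, Real.norm_eq_abs]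
      have g1 := e0_bd (t := y + v) (by linarith [hv.1])
      have g2 : Real.exp (-(y + v) / 2) ≤ 4 / 3 * Real.exp (-y / 2) := by
        rw [show -(y + v) / 2 = -v / 2 + -y / 2 by ring, Real.exp_add]
        refine mul_le_mul_of_nonneg_right ?_ (Real.exp_pos _).le
        have : Real.exp (-v / 2) ≤ Real.exp (1 / 4) := Real.exp_le_exp.mpr (by linarith [hv.1])
        linarith [exp_quarter]
      have g3 : |e0 (y + v)| ≤ 4 / 3 * (1 + CI) * Real.exp (-y / 2) := by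
        refine g1.trans ?_
        have := mul_le_mul_of_nonneg_left g2 (by linarith : 0 ≤ 1 + CI)
        linarith
      have g4 := gt_lip δ v (v - t)
      rw [show v - (v - t) = t by ring] at g4
      exact mul_le_mul g3 g4 (abs_nonneg _) (by positivity)
    · have g1 : gt δ v = 0 := by
        apply gt_zero
        by_contra h
        push Not at h
        exact hv ⟨by linarith [h.1], by linarith [h.2]⟩
      have g2 : gt δ (v - t) = 0 := by
        apply gt_zero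
        by_contra h
        push Not at h
        exact hv ⟨by linarith [h.1], by linarith [h.2]⟩
      rw [g1, g2]
      simp
  have hint : Integrable ((Icc (-(1 / 2) : ℝ) 1).indicator
      (fun _ : ℝ => 4 / 3 * (1 + CI) * Real.exp (-y / 2) * |t|)) := by
    rw [integrable_indicator_iff measurableSet_Icc]
    exact integrableOn_const (by simp)
  refine (norm_integral_le_of_norm_le hint (Eventually.of_forall hb)).trans (le_of_eq ?_)
  rw [integral_indicator measurableSet_Icc, setIntegral_const, smul_eq_mul, Real.volume_real_Icc_of_le (by norm_num)]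
  ring

/-- the difference of the dual part at a far point -/
lemma Dl_dual {δ : ℝ} (hδ1 : δ ≤ 1) {y : ℝ} (hy : 1 ≤ y) (hub : ∀ B : ℝ, ∃ t ∈ Ico (0:ℝ) 1, B < w t) {l : ℝ}
    (hl : Real.exp (-(1 / 2)) ≤ Ac w l) :
    |Dl (ha lam δ) w y l - Dl (sm Lf δ) w y l| ≤
      (|bb| * (∫ u, gt δ u) + 6 * (1 + CI) * Real.exp (-y / 2)) * (1 - Ac w l) := by
  have hC := CI_nonneg
  have ha1 := Ac_lt_one hub l
  have ha0 : 0 < Ac w l := (Real.exp_pos _).trans_le hl
  have hI : 0 ≤ ∫ u, gt δ u := integral_nonneg (gt_nonneg δ)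
  have hI1 := gt_int_le hδ1
  have h1 : Dl (ha lam δ) w y l - Dl (sm Lf δ) w y l = -Dl (R0 δ) w y l + bb * (∫ u, gt δ u) * (1 - √(Ac w l)) := by
    unfold Dl
    rw [ha_eq, ha_eq]
    ring
  have hB : |R0 δ y| ≤ 2 * (1 + CI) * Real.exp (-y / 2) := by
    refine (R0_bd (by linarith)).trans ?_
    have h2 : 0 ≤ (1 + CI) * Real.exp (-y / 2) := by positivity
    nlinarith
  have h2 := Dl_bd (H := R0 δ) (y := y) hub hB (fun t h3 h4 => R0_lip hδ1 hy h3 h4) hl
  have hs1 : √(Ac w l) ≤ 1 := Real.sqrt_le_one.mpr ha1.le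
  have hs2 : Ac w l ≤ √(Ac w l) := by
    have h3 := Real.sq_sqrt ha0.le
    have h4 := Real.sqrt_nonneg (Ac w l)
    nlinarith
  have h3 : |bb * (∫ u, gt δ u) * (1 - √(Ac w l))| ≤ |bb| * (∫ u, gt δ u) * (1 - Ac w l) := by
    rw [abs_mul, abs_mul, abs_of_nonneg hI, abs_of_nonneg (by linarith : 0 ≤ 1 - √(Ac w l))]
    exact mul_le_mul_of_nonneg_left (by linarith) (mul_nonneg (abs_nonneg _) hI)
  rw [h1]
  refine (abs_add_le _ _).trans ?_
  rw [abs_neg]
  linarith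

/-- the smoothed function at the two places -/
lemma sm_pl : ∃ C : ℝ, 0 ≤ C ∧ ∀ σ u₀ δ : ℝ, Pl σ u₀ → δ ≤ 1 → |sm Lf δ u₀| ≤ C * ∫ u, gt δ u := by
  obtain ⟨A, hS⟩ := sys
  have hA := hS.pos
  refine ⟨A * Real.exp 2, by positivity, fun σ u₀ δ hP hδ => ?_⟩
  have hu₀ : 0 ≤ u₀ ∧ u₀ ≤ 1 := by
    rcases hP with ⟨-, rfl⟩ | ⟨-, rfl⟩
    · norm_num
    · exact ⟨Real.log_nonneg (by norm_num), by linarith [Real.log_two_lt_d9]⟩
  unfold sm
  rw [← integral_const_mul, ← Real.norm_eq_abs]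
  apply norm_integral_le_of_norm_le ((gt_integrable δ).const_mul _)
  filter_upwards with u
  rw [norm_mul, Real.norm_eq_abs, Real.norm_of_nonneg (gt_nonneg _ _)]
  rcases le_or_gt u 0 with h | h
  · rw [gt_zero (Or.inl h)]
    simp
  rcases le_or_gt δ u with h' | h'
  · rw [gt_zero (Or.inr h')]
    simp
  apply mul_le_mul_of_nonneg_right _ (gt_nonneg δ u)
  refine (hS.bd (u₀ + u)).trans ?_
  apply mul_le_mul_of_nonneg_left _ hA.le
  apply Real.exp_le_exp.mpr
  rw [abs_of_nonneg (by linarith)]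
  linarith

/-- the upper bound for the limit -/
theorem keyL (h0 : ∀ t ∈ Ico (0:ℝ) 1, 0 ≤ w t) (hw : MonotoneOn w (Ico 0 1))
    (hub : ∀ B : ℝ, ∃ t ∈ Ico (0:ℝ) 1, B < w t) {Cw : ℝ} (hC : ∀ N : ℕ, 1 ≤ N → w (1 - 1 / N) ≤ Cw * √N)
    {σ u₀ K K₁ δ : ℝ} (hP : Pl σ u₀) (hK0 : 0 ≤ K) (hδ : 0 < δ) (hδ1 : δ ≤ 1)
    {τ : ℕ → ℝ} {B₁ : ℝ} (hτ : Tendsto τ atTop atTop)
    (hlim : ∀ t : ℝ, Tendsto (fun n => sm Lf δ (τ n + t)) atTop (𝓝 (sm Lf δ t)))
    (hbd₁ : ∀ᶠ n in atTop, ∀ t t' : ℝ, |t| ≤ 2 → |t - t'| ≤ 1 → |sm Lf δ (τ n + t)| ≤ B₁ ∧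
        |sm Lf δ (τ n + t) - sm Lf δ (τ n + t')| ≤ B₁ * |t - t'|)
    (hfar : ∀ᶠ n in atTop, ∀ x ≤ τ n + u₀, Real.exp ((x - (τ n + u₀)) / 2) * (σ * ha lam δ x) ≤ K * ∫ u, gt δ u)
    (hint : ∀ᶠ n in atTop, IntegrableOn (Dl (ha lam δ) w (τ n + u₀)) (Ioi 0) ∧
        σ * ∫ l in Ioi (0:ℝ), Dl (ha lam δ) w (τ n + u₀) l ≤ K₁ * ∫ u, gt δ u) :
    σ * ∫ l in Nr w, Dl (sm Lf δ) w u₀ l ≤
      (K₁ + w (Real.exp (-(1 / 2))) * (1 + CI + |bb| + K) + |bb| * ∫ t in Ico (0:ℝ) 1, w t) * (∫ u, gt δ u) +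
        w (Real.exp (-(1 / 2))) * |sm Lf δ u₀| := by
  obtain ⟨A, hS⟩ := sys
  have hCI := CI_nonneg
  have hσ : |σ| = 1 := by
    rcases hP with ⟨rfl, -⟩ | ⟨rfl, -⟩ <;> norm_num
  have hu₀ : 0 ≤ u₀ ∧ u₀ ≤ 1 := by
    rcases hP with ⟨-, rfl⟩ | ⟨-, rfl⟩
    · norm_num
    · exact ⟨Real.log_nonneg (by norm_num), by linarith [Real.log_two_lt_d9]⟩
  have hwh := h0 _ half_mem
  set Wh := w (Real.exp (-(1 / 2))) with hWh
  set I₀ := ∫ t in Ico (0:ℝ) 1, w t with hI₀
  have hgi := gap_int h0 hw hub hC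
  have hgap : ∫ l in Nr w, (1 - Ac w l) ≤ I₀ := by
    rw [hI₀, ← Ac_int_eq h0 hw hub]
    refine setIntegral_mono_set (Ac_int h0 hw hub hC) ?_ (Eventually.of_forall fun l h => h.1)
    exact Eventually.of_forall fun l => by
      have := Ac_lt_one hub l
      show (0:ℝ) ≤ 1 - Ac w l
      linarith
  have hH : Tendsto (fun n => sm Lf δ (τ n + u₀)) atTop (𝓝 (sm Lf δ u₀)) := hlim u₀
  have hbd : ∀ᶠ n in atTop, |sm Lf δ (τ n + u₀)| ≤ B₁ ∧
      ∀ t : ℝ, -(1 / 2) ≤ t → t ≤ 0 → |sm Lf δ (τ n + u₀) - sm Lf δ (τ n + u₀ + t)| ≤ B₁ * |t| := by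
    filter_upwards [hbd₁] with n h2
    have hu2 : |u₀| ≤ 2 := by rw [abs_le]; constructor <;> linarith [hu₀.1, hu₀.2]
    refine ⟨(h2 u₀ u₀ hu2 (by simp)).1, fun t h3 h4 => ?_⟩
    have := (h2 u₀ (u₀ + t) hu2 (by rw [abs_le]; constructor <;> linarith)).2
    rw [show u₀ - (u₀ + t) = -t by ring, abs_neg, ← add_assoc] at this
    exact this
  have hI : 0 < ∫ u, gt δ u := gt_int_pos hδ
  have hI1 := gt_int_le hδ1
  set I := ∫ u, gt δ u with hIdef
  -- the limit of the near part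
  have hN := Dl_lim (w := w) (Hn := fun _ => sm Lf δ) (H := sm Lf δ) (yn := fun n => τ n + u₀) (y := u₀) (B := B₁)
    (fun _ => (sm_cont hS hδ1).measurable) h0 hw hub hC
    (hbd.mono fun n hn => hn.1) (hbd.mono fun n hn => hn.2)
    (by
      intro t h1 h2
      have := hlim (u₀ + t)
      refine this.congr fun n => ?_
      rw [add_assoc])
  have hτ1 : ∀ᶠ n in atTop, 1 ≤ τ n := hτ.eventually_ge_atTop 1
  -- inequality for large `n`
  have hev : ∀ᶠ n in atTop, -(Wh * (|sm Lf δ (τ n + u₀)| + (1 + CI + |bb|) * I + K * I)) -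
      (|bb| * I + 6 * (1 + CI) * Real.exp (-(τ n + u₀) / 2)) * I₀ +
      σ * ∫ l in Nr w, Dl (sm Lf δ) w (τ n + u₀) l ≤ K₁ * I := by
    filter_upwards [hτ1, hbd, hint, hfar] with n h1 h2 h3 hle
    have hy : 1 ≤ τ n + u₀ := by linarith [hu₀.1]
    obtain ⟨h4, h5⟩ := h3
    have iN : IntegrableOn (Dl (ha lam δ) w (τ n + u₀)) (Nr w) := h4.mono_set fun _ h => h.1
    have iF : IntegrableOn (Dl (ha lam δ) w (τ n + u₀)) (Fr w) := h4.mono_set fun _ h => h.1
    rw [Nr_union_Fr w, setIntegral_union (Nr_disj_Fr w) (Fr_meas hub) iN iF, mul_add] at h5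
    have h6 := far' (H := ha lam δ) (σ := σ) (y := τ n + u₀) (B := K * I) hσ (mul_nonneg hK0 hI.le) hle h0 hw hub
    have h7 : |ha lam δ (τ n + u₀)| ≤ |sm Lf δ (τ n + u₀)| + (1 + CI + |bb|) * I := by
      rw [ha_eq]
      have g1 := R0_bd (δ := δ) (y := τ n + u₀) (by linarith)
      have g2 : Real.exp (-(τ n + u₀) / 2) ≤ 1 := Real.exp_le_one_iff.mpr (by linarith)
      have g3 : (1 + CI) * Real.exp (-(τ n + u₀) / 2) * (∫ u, gt δ u) ≤ (1 + CI) * 1 * I := by
        rw [← hIdef]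
        gcongr
      have g4 : |bb * ∫ u, gt δ u| = |bb| * I := by rw [abs_mul, ← hIdef, abs_of_pos hI]
      have g5 := abs_add_le (sm Lf δ (τ n + u₀) - R0 δ (τ n + u₀)) (bb * ∫ u, gt δ u)
      have g6 := abs_sub (sm Lf δ (τ n + u₀)) (R0 δ (τ n + u₀))
      linarith
    have h8 : Wh * (|ha lam δ (τ n + u₀)| + K * I) ≤ Wh * (|sm Lf δ (τ n + u₀)| + (1 + CI + |bb|) * I + K * I) :=
      mul_le_mul_of_nonneg_left (by linarith) hwh
    -- near part
    have iH : IntegrableOn (Dl (sm Lf δ) w (τ n + u₀)) (Nr w) :=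
      Dl_int (sm_cont hS hδ1).measurable h0 hw hub hC (B := B₁) h2.1 h2.2
    set Z := |bb| * I + 6 * (1 + CI) * Real.exp (-(τ n + u₀) / 2) with hZ
    have hZ0 : 0 ≤ Z := by positivity
    have h9 : (σ * ∫ l in Nr w, Dl (sm Lf δ) w (τ n + u₀) l) - Z * I₀ ≤
        σ * ∫ l in Nr w, Dl (ha lam δ) w (τ n + u₀) l := by
      have h10 : ∫ l in Nr w, (σ * Dl (sm Lf δ) w (τ n + u₀) l - Z * (1 - Ac w l)) ≤
          ∫ l in Nr w, σ * Dl (ha lam δ) w (τ n + u₀) l := by
        refine setIntegral_mono_on ((iH.const_mul _).sub (hgi.const_mul _)) (iN.const_mul _)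
          (Nr_meas hub) fun l hl => ?_
        have h11 := Dl_dual (w := w) hδ1 hy hub hl.2
        rw [← hIdef, ← hZ] at h11
        have h12 := neg_abs_le (σ * (Dl (ha lam δ) w (τ n + u₀) l - Dl (sm Lf δ) w (τ n + u₀) l))
        rw [abs_mul, hσ, one_mul, mul_sub] at h12
        linarith
      rw [integral_sub (iH.const_mul _) (hgi.const_mul _), integral_const_mul,
        integral_const_mul, integral_const_mul] at h10
      have h13 : Z * (∫ l in Nr w, (1 - Ac w l)) ≤ Z * I₀ := mul_le_mul_of_nonneg_left hgap hZ0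
      linarith
    linarith
  -- the limit
  have hexp : Tendsto (fun n => Real.exp (-(τ n + u₀) / 2)) atTop (𝓝 0) := by
    refine Real.tendsto_exp_atBot.comp ?_
    have h1 : Tendsto (fun n => (τ n + u₀) / 2) atTop atTop :=
      (tendsto_atTop_add_const_right _ u₀ hτ).atTop_div_const (by norm_num)
    refine (tendsto_neg_atTop_atBot.comp h1).congr fun n => ?_
    simp only [Function.comp]
    ring
  have hlim2 : Tendsto (fun n => -(Wh * (|sm Lf δ (τ n + u₀)| + (1 + CI + |bb|) * I + K * I)) -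
      (|bb| * I + 6 * (1 + CI) * Real.exp (-(τ n + u₀) / 2)) * I₀ +
      σ * ∫ l in Nr w, Dl (sm Lf δ) w (τ n + u₀) l) atTop
      (𝓝 (-(Wh * (|sm Lf δ u₀| + (1 + CI + |bb|) * I + K * I)) - (|bb| * I + 6 * (1 + CI) * 0) * I₀ +
        σ * ∫ l in Nr w, Dl (sm Lf δ) w u₀ l)) :=
    (((((hH.abs.add_const _).add_const _).const_mul _).neg).sub (((hexp.const_mul _).const_add _).mul_const _)).add
      (hN.const_mul _)
  have h14 := le_of_tendsto hlim2 hev
  linarith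

end Pool.Agent.Helper90.EL
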