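import Pool.Agent.Helper71.LA.LDec
import Pool.Agent.Helper95.EW.Near
import Pool.Agent.Helper63.EW.Frac

/-!
# Edge weights (MP_a499ba_nt), Liouville: the lower bound at one level
-/

set_option autoImplicit false
open MeasureTheory Real Set Filter Topology
open Pool.Agent.Helper18.ES (S mu lam bb)
open Pool.Agent.Helper71.MR (gt gt_nonneg gt_zero gt_integrable gt_cont gt_le_one gt_lip)
open Pool.Agent.Helper71.MA (sm Sys gt_int)
open Pool.Agent.Helper71.LA (Lf II II_cont sys)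
open Pool.Agent.Helper95.EW (Pl jump exp_neg_half exp_quarter mu_one mu_two)

namespace Pool.Agent.Helper90.EL

lemma lam_one : lam 1 = 1 := by
  unfold lam
  rw [ArithmeticFunction.liouville_apply one_ne_zero]
  simp

lemma lam_two : lam 2 = -1 := by
  unfold lam
  rw [ArithmeticFunction.liouville_apply two_ne_zero, ArithmeticFunction.cardFactors_apply_prime Nat.prime_two]
  simp

lemma S_lam_eq {x : ℝ} (hx : x < 3) : S lam x = S mu x := by
  unfold S
  refine Finset.sum_congr rfl fun n hn => ?_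
  rw [Finset.mem_Icc] at hn
  have h1 : ⌊x⌋₊ < 3 := by
    rw [Nat.floor_lt' (by norm_num)]
    exact_mod_cast hx
  have h2 : n = 1 ∨ n = 2 := by omega
  rcases h2 with rfl | rfl
  · rw [lam_one, mu_one]
  · rw [lam_two, mu_two]

lemma jumpL {σ u₀ : ℝ} (hP : Pl σ u₀) {δ : ℝ} (hδ : δ ≤ 1 / 4) {u : ℝ} (hu0 : 0 < u) (huδ : u < δ) {a : ℝ}
    (ha : Real.exp (-(1 / 2)) ≤ a) (ha1 : a < 1) :
    (if a < Real.exp (-δ) then 1 else 0 : ℝ) ≤
      σ * (S lam (Real.exp (u₀ + u)) - S lam (a * Real.exp (u₀ + u))) := by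
  have hq := exp_quarter
  have e2 : Real.exp u < 4 / 3 := (Real.exp_lt_exp.mpr (by linarith)).trans hq
  have e0 := Real.exp_pos u
  have h3 : Real.exp (u₀ + u) < 3 := by
    rcases hP with ⟨-, rfl⟩ | ⟨-, rfl⟩
    · rw [zero_add]
      linarith
    · rw [Real.exp_add, Real.exp_log two_pos]
      linarith
  have h4 : a * Real.exp (u₀ + u) < 3 := by
    have := Real.exp_pos (u₀ + u)
    nlinarith
  rw [S_lam_eq h3, S_lam_eq h4]
  exact jump hP hδ hu0 huδ ha ha1

lemma Lf_diff {a : ℝ} (ha : 0 < a) (t : ℝ) : Lf t - √a * Lf (t + Real.log a) =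
    Real.exp (-t / 2) * (S lam (Real.exp t) - S lam (a * Real.exp t)) -
      Real.exp (-t / 2) * (II (Real.exp t) - II (a * Real.exp t)) - bb * (1 - √a) := by
  unfold Lf
  have h1 : Real.exp (t + Real.log a) = a * Real.exp t := by
    rw [Real.exp_add, Real.exp_log ha]
    ring
  have h2 : √a * Real.exp (-(t + Real.log a) / 2) = Real.exp (-t / 2) := by
    have h3 : √a = Real.exp (Real.log a / 2) := by
      rw [Real.sqrt_eq_rpow, Real.rpow_def_of_pos ha]
      ring_nf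
    rw [h3, ← Real.exp_add]
    ring_nf
  rw [h1]
  linear_combination (-(S lam (a * Real.exp t) - 1 - II (a * Real.exp t))) * h2

/-- the continuous part -/
lemma IIexp_cont : Continuous fun t : ℝ => II (Real.exp t) :=
  II_cont.comp_continuous Real.continuous_exp fun t => Real.exp_pos t

lemma gtc {f : ℝ → ℝ} (hf : Continuous f) (δ s : ℝ) : Integrable fun u : ℝ => f u * gt δ (u - s) := by
  have hs : HasCompactSupport (fun u : ℝ => f u * gt δ (u - s)) := by
    apply HasCompactSupport.intro (isCompact_Icc (a := s) (b := s + |δ|))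
    intro x hx
    rw [gt_zero, mul_zero]
    by_contra h
    push Not at h
    exact hx ⟨by linarith [h.1], by linarith [h.2, le_abs_self δ]⟩
  exact (hf.mul ((gt_cont δ).comp (continuous_id.sub continuous_const))).integrable_of_hasCompactSupport hs

/-- the Hoelder part of a level -/
noncomputable def Yy (δ u₀ a : ℝ) : ℝ :=
  ∫ u : ℝ, Real.exp (-(u₀ + u) / 2) * (II (Real.exp (u₀ + u)) - II (a * Real.exp (u₀ + u))) * gt δ u

/-- the Hoelder bound near `1` -/
def Hold (CH : ℝ) : Prop := ∀ x y : ℝ, 1 / 4 ≤ x → x ≤ 4 → 1 / 4 ≤ y → y ≤ 4 → |II x - II y| ≤ CH * |x - y| ^ (3 / 8 : ℝ)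

theorem Y_one {CH : ℝ} (hCH : 0 ≤ CH) (hH : Hold CH) {u₀ δ a : ℝ} (hu0 : 0 ≤ u₀) (hu2 : Real.exp u₀ ≤ 2)
    (hδ4 : δ ≤ 1 / 4) (ha : Real.exp (-(1 / 2)) ≤ a) (ha1 : a < 1) :
    |Yy δ u₀ a| ≤ 2 * CH * (1 - a) ^ (3 / 8 : ℝ) * ∫ u, gt δ u := by
  unfold Yy
  rw [← integral_const_mul, ← Real.norm_eq_abs]
  apply norm_integral_le_of_norm_le ((gt_integrable δ).const_mul _)
  filter_upwards with u
  rw [norm_mul, Real.norm_eq_abs, Real.norm_of_nonneg (gt_nonneg _ _)]
  rcases le_or_gt u 0 with h | h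
  · rw [gt_zero (Or.inl h)]
    simp
  rcases le_or_gt δ u with h' | h'
  · rw [gt_zero (Or.inr h')]
    simp
  apply mul_le_mul_of_nonneg_right _ (gt_nonneg δ u)
  have hq := exp_quarter
  have h35 := exp_neg_half
  have e1 : 1 < Real.exp u := Real.one_lt_exp_iff.mpr h
  have e2 : Real.exp u < 4 / 3 := (Real.exp_lt_exp.mpr (by linarith)).trans hq
  have e3 : 1 ≤ Real.exp u₀ := Real.one_le_exp hu0
  set X := Real.exp (u₀ + u) with hX
  have hX1 : X = Real.exp u₀ * Real.exp u := by rw [hX, Real.exp_add]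
  have hXl : 1 ≤ X := by
    rw [hX1]
    nlinarith
  have hXu : X ≤ 3 := by
    rw [hX1]
    nlinarith
  have h5 := hH X (a * X) (by linarith) (by linarith) (by nlinarith) (by nlinarith)
  have h6 : |X - a * X| = X * (1 - a) := by
    rw [show X - a * X = X * (1 - a) by ring]
    exact abs_of_nonneg (mul_nonneg (by linarith) (by linarith))
  rw [h6, Real.mul_rpow (by linarith) (by linarith)] at h5
  have h7 : X ^ (3 / 8 : ℝ) ≤ 2 := by
    calc X ^ (3 / 8 : ℝ) ≤ (4:ℝ) ^ (3 / 8 : ℝ) := Real.rpow_le_rpow (by linarith) (by linarith) (by norm_num)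
      _ ≤ (4:ℝ) ^ (1 / 2 : ℝ) := Real.rpow_le_rpow_of_exponent_le (by norm_num) (by norm_num)
      _ = 2 := by
        rw [← Real.sqrt_eq_rpow, show (4:ℝ) = 2 ^ 2 by norm_num]
        exact Real.sqrt_sq (by norm_num)
  have h8 : Real.exp (-(u₀ + u) / 2) ≤ 1 := Real.exp_le_one_iff.mpr (by linarith)
  have hs : 0 ≤ (1 - a) ^ (3 / 8 : ℝ) := Real.rpow_nonneg (by linarith) _
  rw [abs_mul, abs_of_pos (Real.exp_pos _)]
  calc Real.exp (-(u₀ + u) / 2) * |II X - II (a * X)| ≤ 1 * (CH * (X ^ (3 / 8 : ℝ) * (1 - a) ^ (3 / 8 : ℝ))) :=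
        mul_le_mul h8 h5 (abs_nonneg _) zero_le_one
    _ ≤ 1 * (CH * (2 * (1 - a) ^ (3 / 8 : ℝ))) := by gcongr
    _ = _ := by ring

/-- the Lipschitz bound after smoothing -/
theorem Y_two {CH : ℝ} (hCH : 0 ≤ CH) (hH : Hold CH) {u₀ δ a : ℝ} (hu2 : Real.exp u₀ ≤ 2) (hu0 : 0 ≤ u₀)
    (hδ : 0 < δ) (hδ4 : δ ≤ 1 / 4) (ha : Real.exp (-(1 / 2)) ≤ a) (ha1 : a < 1) (hae : Real.exp (-δ) ≤ a) :
    |Yy δ u₀ a| ≤ 16 * CH * (1 - a) * (δ ^ (3 / 8 : ℝ) * δ) := by
  have ha0 : 0 < a := (Real.exp_pos _).trans_le ha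
  have h35 := exp_neg_half
  set l := Real.log a with hl
  have hl0 : l ≤ 0 := Real.log_nonpos ha0.le ha1.le
  have hl1 : -δ ≤ l := by
    rw [hl, Real.le_log_iff_exp_le ha0]
    exact hae
  have hl2 : |l| ≤ 5 / 3 * (1 - a) := by
    rw [abs_of_nonpos hl0, hl, ← Real.log_inv]
    have h1 := Real.log_le_sub_one_of_pos (inv_pos.mpr ha0)
    have h2 : a⁻¹ - 1 ≤ 5 / 3 * (1 - a) := by
      have h3 : a⁻¹ - 1 = (1 - a) / a := by field_simp
      rw [h3, div_le_iff₀ ha0]
      nlinarith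
    linarith
  have hs0 := Real.sqrt_nonneg a
  have hs1 : √a ≤ 1 := Real.sqrt_le_one.mpr ha1.le
  have hs2 : a ≤ √a := by
    have h1 := Real.sq_sqrt ha0.le
    nlinarith
  set c := II (Real.exp u₀) with hc
  set φ : ℝ → ℝ := fun v => Real.exp (-(u₀ + v) / 2) * (II (Real.exp (u₀ + v)) - c) with hφ
  have hφc : Continuous φ := by
    have h1 : Continuous fun v : ℝ => II (Real.exp (u₀ + v)) := IIexp_cont.comp (continuous_const.add continuous_id)
    have h2 : Continuous fun v : ℝ => Real.exp (-(u₀ + v) / 2) := by fun_prop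
    exact h2.mul (h1.sub continuous_const)
  have hpt : ∀ u : ℝ, Real.exp (-(u₀ + u) / 2) * (II (Real.exp (u₀ + u)) - II (a * Real.exp (u₀ + u))) =
      φ u - √a * φ (u + l) := by
    intro u
    rw [hφ]
    simp only
    have h1 : Real.exp (u₀ + (u + l)) = a * Real.exp (u₀ + u) := by
      rw [← add_assoc, Real.exp_add, hl, Real.exp_log ha0]
      ring
    have h2 : √a * Real.exp (-(u₀ + (u + l)) / 2) = Real.exp (-(u₀ + u) / 2) := by
      have h3 : √a = Real.exp (l / 2) := by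
        rw [Real.sqrt_eq_rpow, Real.rpow_def_of_pos ha0, hl]
        ring_nf
      rw [h3, ← Real.exp_add]
      ring_nf
    rw [h1, ← mul_assoc, h2]
    ring
  have e1 : Yy δ u₀ a = ∫ v : ℝ, φ v * (gt δ v - √a * gt δ (v - l)) := by
    unfold Yy
    have i1 : Integrable fun u : ℝ => φ u * gt δ u := by
      have := gtc hφc δ 0
      simpa using this
    have i2 : Integrable fun u : ℝ => φ u * gt δ (u - l) := gtc hφc δ l
    have i3 : Integrable fun u : ℝ => φ (u + l) * gt δ u := by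
      have := gtc (hφc.comp (continuous_id.add continuous_const) : Continuous fun u => φ (u + l)) δ 0
      simpa using this
    have e2 : ∫ u : ℝ, φ (u + l) * gt δ u = ∫ v : ℝ, φ v * gt δ (v - l) := by
      rw [← integral_add_right_eq_self (fun v : ℝ => φ v * gt δ (v - l)) l]
      refine integral_congr_ae (Eventually.of_forall fun u => ?_)
      simp only [add_sub_cancel_right]
    calc ∫ u : ℝ, Real.exp (-(u₀ + u) / 2) * (II (Real.exp (u₀ + u)) - II (a * Real.exp (u₀ + u))) * gt δ u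
        = ∫ u : ℝ, (φ u * gt δ u - √a * (φ (u + l) * gt δ u)) := by
          refine integral_congr_ae (Eventually.of_forall fun u => ?_)
          simp only
          rw [hpt]
          ring
      _ = (∫ u : ℝ, φ u * gt δ u) - √a * ∫ v : ℝ, φ v * gt δ (v - l) := by
          rw [integral_sub i1 (i3.const_mul _), integral_const_mul, e2]
      _ = _ := by
          rw [← integral_const_mul, ← integral_sub i1 (i2.const_mul _)]
          refine integral_congr_ae (Eventually.of_forall fun u => ?_)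
          simp only
          ring
  rw [e1, ← Real.norm_eq_abs]
  -- pointwise bound
  have hq := exp_quarter
  have hb : ∀ v : ℝ, ‖φ v * (gt δ v - √a * gt δ (v - l))‖ ≤
      (Icc (-δ) δ).indicator (fun _ => 3 * CH * δ ^ (3 / 8 : ℝ) * (8 / 3 * (1 - a))) v := by
    intro v
    rw [Set.indicator_apply]
    split_ifs with hv
    · rw [norm_mul, Real.norm_eq_abs, Real.norm_eq_abs]
      have hva : |v| ≤ δ := abs_le.2 hv
      have g1 : |φ v| ≤ 3 * CH * δ ^ (3 / 8 : ℝ) := by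
        rw [hφ]
        simp only
        rw [abs_mul, abs_of_pos (Real.exp_pos _)]
        have h1 : Real.exp (-(u₀ + v) / 2) ≤ 4 / 3 := by
          have : Real.exp (-(u₀ + v) / 2) ≤ Real.exp (1 / 4) := Real.exp_le_exp.mpr (by linarith [hv.1])
          linarith
        have h2 : |Real.exp (u₀ + v) - Real.exp u₀| ≤ 4 * δ := by
          have h3 : |Real.exp v - 1| ≤ 2 * |v| := Real.abs_exp_sub_one_le (by linarith)
          rw [Real.exp_add, show Real.exp u₀ * Real.exp v - Real.exp u₀ = Real.exp u₀ * (Real.exp v - 1) by ring,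
            abs_mul, abs_of_pos (Real.exp_pos _)]
          calc Real.exp u₀ * |Real.exp v - 1| ≤ 2 * (2 * δ) :=
                mul_le_mul hu2 (h3.trans (by linarith)) (abs_nonneg _) (by norm_num)
            _ = 4 * δ := by ring
        have e3 : 1 ≤ Real.exp u₀ := Real.one_le_exp hu0
        have h4 : 1 / 4 ≤ Real.exp (u₀ + v) ∧ Real.exp (u₀ + v) ≤ 4 := by
          have h5 := abs_le.1 h2
          constructor
          · have h6 : Real.exp (-(1 / 2)) ≤ Real.exp (u₀ + v) := Real.exp_le_exp.mpr (by linarith [hv.1])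
            linarith
          · linarith [h5.2]
        have h5 := hH (Real.exp (u₀ + v)) (Real.exp u₀) h4.1 h4.2 (by linarith) (by linarith)
        have h6 : |Real.exp (u₀ + v) - Real.exp u₀| ^ (3 / 8 : ℝ) ≤ 2 * δ ^ (3 / 8 : ℝ) := by
          calc |Real.exp (u₀ + v) - Real.exp u₀| ^ (3 / 8 : ℝ) ≤ (4 * δ) ^ (3 / 8 : ℝ) :=
                Real.rpow_le_rpow (abs_nonneg _) h2 (by norm_num)
            _ = (4:ℝ) ^ (3 / 8 : ℝ) * δ ^ (3 / 8 : ℝ) := Real.mul_rpow (by norm_num) hδ.le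
            _ ≤ 2 * δ ^ (3 / 8 : ℝ) := by
              refine mul_le_mul_of_nonneg_right ?_ (Real.rpow_nonneg hδ.le _)
              calc (4:ℝ) ^ (3 / 8 : ℝ) ≤ (4:ℝ) ^ (1 / 2 : ℝ) :=
                    Real.rpow_le_rpow_of_exponent_le (by norm_num) (by norm_num)
                _ = 2 := by
                  rw [← Real.sqrt_eq_rpow, show (4:ℝ) = 2 ^ 2 by norm_num]
                  exact Real.sqrt_sq (by norm_num)
        have hd0 : 0 ≤ δ ^ (3 / 8 : ℝ) := Real.rpow_nonneg hδ.le _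
        calc Real.exp (-(u₀ + v) / 2) * |II (Real.exp (u₀ + v)) - c| ≤ 4 / 3 * (CH * (2 * δ ^ (3 / 8 : ℝ))) :=
              mul_le_mul h1 (h5.trans (mul_le_mul_of_nonneg_left h6 hCH)) (abs_nonneg _) (by norm_num)
          _ ≤ 3 * CH * δ ^ (3 / 8 : ℝ) := by
            have := mul_nonneg hCH hd0
            nlinarith
      have g2 : |gt δ v - √a * gt δ (v - l)| ≤ 8 / 3 * (1 - a) := by
        have h1 := gt_lip δ v (v - l)
        rw [show v - (v - l) = l by ring] at h1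
        have h2 := gt_le_one (by linarith : δ ≤ 1) (v - l)
        have h3 := gt_nonneg δ (v - l)
        have h4 : gt δ v - √a * gt δ (v - l) = (gt δ v - gt δ (v - l)) + (1 - √a) * gt δ (v - l) := by ring
        rw [h4]
        refine (abs_add_le _ _).trans ?_
        rw [abs_mul, abs_of_nonneg (by linarith : 0 ≤ 1 - √a), abs_of_nonneg h3]
        have h5 : (1 - √a) * gt δ (v - l) ≤ (1 - a) * 1 := mul_le_mul (by linarith) h2 h3 (by linarith)
        linarith
      exact mul_le_mul g1 g2 (abs_nonneg _) (by positivity)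
    · have h1 : gt δ v = 0 := by
        apply gt_zero
        by_contra h
        push Not at h
        exact hv ⟨by linarith [h.1], h.2.le⟩
      have h2 : gt δ (v - l) = 0 := by
        apply gt_zero
        by_contra h
        push Not at h
        exact hv ⟨by linarith [h.1], by linarith [h.2]⟩
      rw [h1, h2]
      simp
  have hint : Integrable ((Icc (-δ) δ).indicator (fun _ : ℝ => 3 * CH * δ ^ (3 / 8 : ℝ) * (8 / 3 * (1 - a)))) := by
    rw [integrable_indicator_iff measurableSet_Icc]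
    exact integrableOn_const (by simp)
  refine (norm_integral_le_of_norm_le hint (Eventually.of_forall hb)).trans (le_of_eq ?_)
  rw [integral_indicator measurableSet_Icc, setIntegral_const, smul_eq_mul, Real.volume_real_Icc_of_le (by linarith)]
  ring

/-- both bounds -/
theorem Y_bd {CH : ℝ} (hCH : 0 ≤ CH) (hH : Hold CH) {u₀ δ a : ℝ} (hu0 : 0 ≤ u₀) (hu2 : Real.exp u₀ ≤ 2)
    (hδ : 0 < δ) (hδ4 : δ ≤ 1 / 4) (ha : Real.exp (-(1 / 2)) ≤ a) (ha1 : a < 1) :
    |Yy δ u₀ a| ≤ 64 * CH * (1 - a) ^ (5 / 8 : ℝ) * δ ^ (-(1 / 4) : ℝ) * ∫ u, gt δ u := by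
  have hI := Pool.Agent.Helper63.EW.gt_int_ge hδ.le
  have hI0 : 0 ≤ ∫ u, gt δ u := integral_nonneg (gt_nonneg δ)
  have hs : 0 < 1 - a := by linarith
  rcases lt_or_ge a (Real.exp (-δ)) with h | h
  · refine (Y_one hCH hH hu0 hu2 hδ4 ha ha1).trans ?_
    refine mul_le_mul_of_nonneg_right ?_ hI0
    -- `δ ≤ 2 (1 - a)`
    have h1 : δ ≤ 2 * (1 - a) := by
      have h2 : Real.exp (-δ) ≤ 1 - δ / 2 := by
        have h3 := Real.exp_bound_div_one_sub_of_interval (x := δ) hδ.le (by linarith)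
        have h4 : Real.exp (-δ) * Real.exp δ = 1 := by rw [← Real.exp_add]; simp
        have h5 := Real.add_one_le_exp δ
        have h6 := Real.exp_pos (-δ)
        nlinarith
      linarith
    have h2 : (1 - a) ^ (3 / 8 : ℝ) ≤ 2 * ((1 - a) ^ (5 / 8 : ℝ) * δ ^ (-(1 / 4) : ℝ)) := by
      have h3 : (2 * (1 - a)) ^ (-(1 / 4) : ℝ) ≤ δ ^ (-(1 / 4) : ℝ) :=
        Real.rpow_le_rpow_of_nonpos hδ h1 (by norm_num)
      have h4 : (2 * (1 - a)) ^ (-(1 / 4) : ℝ) = (2:ℝ) ^ (-(1 / 4) : ℝ) * (1 - a) ^ (-(1 / 4) : ℝ) :=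
        Real.mul_rpow (by norm_num) hs.le
      have h5 : (1 / 2 : ℝ) ≤ (2:ℝ) ^ (-(1 / 4) : ℝ) := by
        calc (1 / 2 : ℝ) = (2:ℝ) ^ (-1 : ℝ) := by
              rw [Real.rpow_neg_one]
              norm_num
          _ ≤ _ := Real.rpow_le_rpow_of_exponent_le (by norm_num) (by norm_num)
      have h6 : (1 - a) ^ (5 / 8 : ℝ) * (1 - a) ^ (-(1 / 4) : ℝ) = (1 - a) ^ (3 / 8 : ℝ) := by
        rw [← Real.rpow_add hs]
        norm_num
      have h7 : 0 ≤ (1 - a) ^ (5 / 8 : ℝ) := Real.rpow_nonneg hs.le _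
      have h8 : 0 ≤ (1 - a) ^ (-(1 / 4) : ℝ) := Real.rpow_nonneg hs.le _
      have h9 : 1 / 2 * (1 - a) ^ (-(1 / 4) : ℝ) ≤ δ ^ (-(1 / 4) : ℝ) := by
        rw [h4] at h3
        exact (mul_le_mul_of_nonneg_right h5 h8).trans h3
      have h10 := mul_le_mul_of_nonneg_left h9 h7
      rw [← h6]
      linarith
    have h3 := mul_le_mul_of_nonneg_left h2 (mul_nonneg (by norm_num : (0:ℝ) ≤ 2) hCH)
    have h4 : 0 ≤ CH * ((1 - a) ^ (5 / 8 : ℝ) * δ ^ (-(1 / 4) : ℝ)) := by positivity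
    linarith
  · refine (Y_two hCH hH hu2 hu0 hδ hδ4 ha ha1 h).trans ?_
    have h1 : 1 - a ≤ δ := by
      have := Real.add_one_le_exp (-δ)
      linarith
    have h2 : δ ^ (3 / 8 : ℝ) * δ = δ ^ 2 * δ ^ (-(5 / 8) : ℝ) := by
      have e1 : δ ^ 2 = δ ^ (2:ℝ) := by norm_cast
      have e2 : δ ^ (3 / 8 : ℝ) * δ = δ ^ (3 / 8 : ℝ) * δ ^ (1:ℝ) := by rw [Real.rpow_one]
      rw [e1, e2, ← Real.rpow_add hδ, ← Real.rpow_add hδ]
      norm_num
    have h3 : (1 - a) * δ ^ (-(5 / 8) : ℝ) ≤ (1 - a) ^ (5 / 8 : ℝ) * δ ^ (-(1 / 4) : ℝ) := by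
      have e1 : 1 - a = (1 - a) ^ (5 / 8 : ℝ) * (1 - a) ^ (3 / 8 : ℝ) := by
        rw [← Real.rpow_add hs]
        norm_num
      have e2 : (1 - a) ^ (3 / 8 : ℝ) ≤ δ ^ (3 / 8 : ℝ) := Real.rpow_le_rpow hs.le h1 (by norm_num)
      have e3 : δ ^ (-(1 / 4) : ℝ) = δ ^ (3 / 8 : ℝ) * δ ^ (-(5 / 8) : ℝ) := by
        rw [← Real.rpow_add hδ]
        norm_num
      have e4 : 0 ≤ δ ^ (-(5 / 8) : ℝ) := Real.rpow_nonneg hδ.le _
      have e5 : 0 ≤ (1 - a) ^ (5 / 8 : ℝ) := Real.rpow_nonneg hs.le _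
      calc (1 - a) * δ ^ (-(5 / 8) : ℝ) = (1 - a) ^ (5 / 8 : ℝ) * (1 - a) ^ (3 / 8 : ℝ) * δ ^ (-(5 / 8) : ℝ) := by
            rw [← e1]
        _ ≤ (1 - a) ^ (5 / 8 : ℝ) * δ ^ (3 / 8 : ℝ) * δ ^ (-(5 / 8) : ℝ) :=
            mul_le_mul_of_nonneg_right (mul_le_mul_of_nonneg_left e2 e5) e4
        _ = _ := by rw [e3]; ring
    rw [h2]
    have h4 : 0 ≤ (1 - a) * δ ^ (-(5 / 8) : ℝ) := mul_nonneg hs.le (Real.rpow_nonneg hδ.le _)
    calc 16 * CH * (1 - a) * (δ ^ 2 * δ ^ (-(5 / 8) : ℝ)) = 64 * CH * ((1 - a) * δ ^ (-(5 / 8) : ℝ)) * (δ ^ 2 / 4) := by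
          ring
      _ ≤ 64 * CH * ((1 - a) ^ (5 / 8 : ℝ) * δ ^ (-(1 / 4) : ℝ)) * ∫ u, gt δ u :=
          mul_le_mul (mul_le_mul_of_nonneg_left h3 (by positivity)) hI (by positivity) (by positivity)
      _ = _ := by ring

/-- **the lower bound at one level** -/
theorem levelL {CH : ℝ} (hCH : 0 ≤ CH) (hH : Hold CH) {σ u₀ : ℝ} (hP : Pl σ u₀) {δ : ℝ} (hδ : 0 < δ) (hδ4 : δ ≤ 1 / 4)
    {a : ℝ} (ha : Real.exp (-(1 / 2)) ≤ a) (ha1 : a < 1) :
    (1 / 2 * (if a < Real.exp (-δ) then 1 else 0) - |bb| * (1 - a)) * (∫ u, gt δ u) - |Yy δ u₀ a| ≤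
        σ * (sm Lf δ u₀ - √a * sm Lf δ (u₀ + Real.log a)) := by
  obtain ⟨A, hS⟩ := sys
  have ha0 : 0 < a := (Real.exp_pos _).trans_le ha
  have hδ1 : δ ≤ 1 := by linarith
  have hi : ∀ y : ℝ, Integrable (fun u : ℝ => Lf (y + u) * gt δ u) := fun y => by
    have := gt_int hS hδ1 y 0
    simpa using this
  have hσ : |σ| = 1 := by
    rcases hP with ⟨rfl, -⟩ | ⟨rfl, -⟩ <;> norm_num
  have hu₀ : 0 ≤ u₀ ∧ u₀ ≤ 3 / 4 := by
    rcases hP with ⟨-, rfl⟩ | ⟨-, rfl⟩
    · norm_num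
    · exact ⟨Real.log_nonneg (by norm_num), by linarith [Real.log_two_lt_d9]⟩
  set g : ℝ → ℝ := fun u => Real.exp (-(u₀ + u) / 2) * (II (Real.exp (u₀ + u)) - II (a * Real.exp (u₀ + u))) * gt δ u
    with hg
  have hgi : Integrable g := by
    have h1 : Continuous fun v : ℝ => II (Real.exp (u₀ + v)) := IIexp_cont.comp (continuous_const.add continuous_id)
    have h2 : Continuous fun v : ℝ => Real.exp (-(u₀ + v) / 2) := by fun_prop
    have h3 : Continuous fun v : ℝ => II (a * Real.exp (u₀ + v)) := by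
      have h4 : (fun v : ℝ => II (a * Real.exp (u₀ + v))) = fun v => II (Real.exp (u₀ + v + Real.log a)) := by
        funext v
        rw [Real.exp_add (u₀ + v), Real.exp_log ha0, mul_comm a]
      rw [h4]
      exact IIexp_cont.comp (by fun_prop)
    have := gtc (h2.mul (h1.sub h3)) δ 0
    simp only [sub_zero] at this
    exact this
  have e : σ * (sm Lf δ u₀ - √a * sm Lf δ (u₀ + Real.log a)) =
      ∫ u, σ * (Lf (u₀ + u) - √a * Lf (u₀ + Real.log a + u)) * gt δ u := by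
    unfold sm
    rw [← integral_const_mul (√a), ← integral_sub (hi _) ((hi _).const_mul _), ← integral_const_mul]
    apply integral_congr_ae
    filter_upwards with u
    ring
  have hmono : ∫ u, ((1 / 2 * (if a < Real.exp (-δ) then 1 else 0) - |bb| * (1 - a)) * gt δ u - σ * g u) ≤
      ∫ u, σ * (Lf (u₀ + u) - √a * Lf (u₀ + Real.log a + u)) * gt δ u := by
    apply integral_mono (((gt_integrable δ).const_mul _).sub (hgi.const_mul _))
    · have h1 := (((hi u₀).sub ((hi (u₀ + Real.log a)).const_mul (√a))).const_mul σ)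
      refine h1.congr ?_
      filter_upwards with u
      simp only [Pi.sub_apply]
      ring
    · intro u
      show (1 / 2 * (if a < Real.exp (-δ) then 1 else 0) - |bb| * (1 - a)) * gt δ u - σ * g u ≤
        σ * (Lf (u₀ + u) - √a * Lf (u₀ + Real.log a + u)) * gt δ u
      rcases le_or_gt u 0 with h | h
      · rw [hg]
        simp only
        rw [gt_zero (Or.inl h)]
        simp
      rcases le_or_gt δ u with h' | h'
      · rw [hg]
        simp only
        rw [gt_zero (Or.inr h')]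
        simp
      have h3 := jumpL hP hδ4 h h' ha ha1
      have h6 := Lf_diff ha0 (u₀ + u)
      rw [show u₀ + u + Real.log a = u₀ + Real.log a + u by ring] at h6
      have h8 : (1 / 2 : ℝ) ≤ Real.exp (-(u₀ + u) / 2) := by
        have : Real.exp (-(1 / 2)) ≤ Real.exp (-(u₀ + u) / 2) := Real.exp_le_exp.mpr (by linarith [hu₀.2])
        linarith [exp_neg_half]
      have h9 : (0 : ℝ) ≤ (if a < Real.exp (-δ) then 1 else 0) := by split_ifs <;> norm_num
      have h10 : 1 / 2 * (if a < Real.exp (-δ) then 1 else 0 : ℝ) ≤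
          σ * (Real.exp (-(u₀ + u) / 2) * (S lam (Real.exp (u₀ + u)) - S lam (a * Real.exp (u₀ + u)))) := by
        calc 1 / 2 * (if a < Real.exp (-δ) then 1 else 0 : ℝ)
            ≤ Real.exp (-(u₀ + u) / 2) * (σ * (S lam (Real.exp (u₀ + u)) - S lam (a * Real.exp (u₀ + u)))) :=
              mul_le_mul h8 h3 h9 (Real.exp_pos _).le
          _ = _ := by ring
      have h11 : σ * (bb * (1 - √a)) ≤ |bb| * (1 - a) := by
        have hs1 : √a ≤ 1 := Real.sqrt_le_one.mpr ha1.le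
        have hs2 : a ≤ √a := by
          have h1 := Real.sq_sqrt ha0.le
          have h2 := Real.sqrt_nonneg a
          nlinarith
        have h12 := le_abs_self (σ * (bb * (1 - √a)))
        rw [abs_mul, hσ, one_mul, abs_mul, abs_of_nonneg (by linarith : 0 ≤ 1 - √a)] at h12
        exact h12.trans (mul_le_mul_of_nonneg_left (by linarith) (abs_nonneg _))
      rw [h6, hg]
      simp only
      have h13 : σ * (Real.exp (-(u₀ + u) / 2) * (S lam (Real.exp (u₀ + u)) - S lam (a * Real.exp (u₀ + u))) -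
          Real.exp (-(u₀ + u) / 2) * (II (Real.exp (u₀ + u)) - II (a * Real.exp (u₀ + u))) - bb * (1 - √a)) * gt δ u =
          (σ * (Real.exp (-(u₀ + u) / 2) * (S lam (Real.exp (u₀ + u)) - S lam (a * Real.exp (u₀ + u)))) -
            σ * (bb * (1 - √a))) * gt δ u -
          σ * (Real.exp (-(u₀ + u) / 2) * (II (Real.exp (u₀ + u)) - II (a * Real.exp (u₀ + u))) * gt δ u) := by ring
      rw [h13]
      have h14 := mul_le_mul_of_nonneg_right (sub_le_sub h10 h11) (gt_nonneg δ u)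
      linarith
  rw [integral_sub ((gt_integrable δ).const_mul _) (hgi.const_mul _), integral_const_mul, integral_const_mul] at hmono
  have hY : σ * ∫ u, g u ≤ |Yy δ u₀ a| := by
    have h12 := le_abs_self (σ * ∫ u, g u)
    rw [abs_mul, hσ, one_mul] at h12
    exact h12
  rw [e]
  linarith

end Pool.Agent.Helper90.EL
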