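import Pool.Agent.Helper90.EL.Gap
import Pool.Agent.Helper90.EL.Lev

/-!
# Edge weights (MP_a499ba_nt), Liouville: the spike
-/

set_option autoImplicit false
open MeasureTheory Real Set Filter Topology
open Pool.Agent.Helper18.ES (S mu lam bb)
open Pool.Agent.Helper71.MR (gt gt_nonneg gt_zero gt_integrable gt_cont gt_le_one gt_lip)
open Pool.Agent.Helper71.MA (sm Sys gt_int sm_cont sm_bd_wt sm_lip_wt)
open Pool.Agent.Helper71.LA (Lf II II_cont sys)
open Pool.Agent.Helper95.EW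

namespace Pool.Agent.Helper90.EL

variable {w : ℝ → ℝ}

/-- bound and Lipschitz bound of the smoothed function near one point -/
theorem sm_bd_lip {δ : ℝ} (hδ : δ ≤ 1) (y : ℝ) : ∃ B : ℝ, |sm Lf δ y| ≤ B ∧
    ∀ t : ℝ, -(1 / 2) ≤ t → t ≤ 0 → |sm Lf δ y - sm Lf δ (y + t)| ≤ B * |t| := by
  obtain ⟨A, hS⟩ := sys
  refine ⟨Real.exp (Real.exp (2 * (1 + 1)) / 10) * ∫ v : ℝ, |Lf (y + v)| * Pool.Agent.Helper71.MR.wt v, ?_,
    fun t h1 h2 => ?_⟩
  · have := sm_bd_wt hS hδ (t := 0) (R := 1) (by simp) y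
    rwa [add_zero] at this
  · have := sm_lip_wt hS hδ (t := 0) (t' := t) (R := 1) (by simp) (by rw [abs_le]; constructor <;> linarith) y
    rw [add_zero, zero_sub, abs_neg] at this
    refine this.trans_eq ?_
    ring

/-- **(S)**: the spike, with a bound `D (1 - a)^q` for the Hoelder part -/
theorem spikeL {CH : ℝ} (hCH : 0 ≤ CH) (hH : Hold CH) {σ u₀ : ℝ} (hP : Pl σ u₀) {δ : ℝ} (hδ : 0 < δ) (hδ4 : δ ≤ 1 / 4)
    (h0 : ∀ t ∈ Ico (0:ℝ) 1, 0 ≤ w t) (hw : MonotoneOn w (Ico 0 1)) (hub : ∀ B : ℝ, ∃ t ∈ Ico (0:ℝ) 1, B < w t)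
    {Cw : ℝ} (hC : ∀ N : ℕ, 1 ≤ N → w (1 - 1 / N) ≤ Cw * √N) {D q : ℝ}
    (hY : ∀ a : ℝ, Real.exp (-(1 / 2)) ≤ a → a < 1 → |Yy δ u₀ a| ≤ D * (1 - a) ^ q * ∫ u, gt δ u)
    (hq : IntegrableOn (fun l => (1 - Ac w l) ^ q) (Ioi (0:ℝ))) :
      (1 / 2 * (w (Real.exp (-(2 * δ))) - w (Real.exp (-(1 / 2)))) - |bb| * (∫ t in Ico (0:ℝ) 1, w t) -
        D * ∫ l in Nr w, (1 - Ac w l) ^ q) * (∫ u, gt δ u) ≤ σ * ∫ l in Nr w, Dl (sm Lf δ) w u₀ l := by
  have hI : 0 ≤ ∫ u, gt δ u := integral_nonneg (gt_nonneg δ)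
  have hδ1 : δ ≤ 1 := by linarith
  obtain ⟨A, hS⟩ := sys
  obtain ⟨B, hB, hL⟩ := sm_bd_lip hδ1 u₀
  have hDi := Dl_int (sm_cont hS hδ1).measurable h0 hw hub hC hB hL
  have hgi := gap_int h0 hw hub hC
  have hqi : IntegrableOn (fun l => (1 - Ac w l) ^ q) (Nr w) := hq.mono_set fun _ h => h.1
  -- the set of levels of the spike
  have hed : Real.exp (-δ) < 1 := Real.exp_lt_one_iff.mpr (by linarith)
  have hset : {l : ℝ | 0 < l ∧ Ac w l < Real.exp (-δ)} ⊆ (Nr w ∩ {l | Ac w l < Real.exp (-δ)}) ∪ Fr w := by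
    intro l h
    rcases le_or_gt (Real.exp (-(1 / 2))) (Ac w l) with h1 | h1
    · exact Or.inl ⟨⟨h.1, h1⟩, h.2⟩
    · exact Or.inr ⟨h.1, h1⟩
  have hfin : volume (Nr w ∩ {l | Ac w l < Real.exp (-δ)}) ≠ ⊤ :=
    ne_top_of_le_ne_top (fin_vol hw hub hed) (measure_mono fun l h => ⟨h.1.1, h.2⟩)
  have hmem2 : Real.exp (-(2 * δ)) ∈ Ico (0:ℝ) 1 := ⟨(Real.exp_pos _).le, Real.exp_lt_one_iff.mpr (by linarith)⟩
  have hv : w (Real.exp (-(2 * δ))) - w (Real.exp (-(1 / 2))) ≤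
      volume.real (Nr w ∩ {l | Ac w l < Real.exp (-δ)}) := by
    have h1 := real_ge hw hub hmem2 (Real.exp_lt_exp.mpr (by linarith : -(2 * δ) < -δ)) hed
    have h2 : volume.real {l : ℝ | 0 < l ∧ Ac w l < Real.exp (-δ)} ≤
        volume.real (Nr w ∩ {l | Ac w l < Real.exp (-δ)}) + volume.real (Fr w) :=
      (measureReal_mono hset (measure_union_ne_top hfin (Fr_fin hw hub))).trans (measureReal_union_le _ _)
    have h3 := Fr_vol hw h0 hub
    linarith
  -- the integral of the lower bound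
  have e1 : ∫ l in Nr w, ({l | Ac w l < Real.exp (-δ)}.indicator (fun _ => (1:ℝ)) l) =
      volume.real (Nr w ∩ {l | Ac w l < Real.exp (-δ)}) := by
    rw [integral_indicator (measurableSet_lt (Ac_meas hub) measurable_const), setIntegral_const,
      smul_eq_mul, mul_one, measureReal_restrict_apply (measurableSet_lt (Ac_meas hub) measurable_const), inter_comm]
  have i1 : IntegrableOn (fun l => {l | Ac w l < Real.exp (-δ)}.indicator (fun _ => (1:ℝ)) l) (Nr w) := by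
    rw [IntegrableOn, integrable_indicator_iff (measurableSet_lt (Ac_meas hub) measurable_const)]
    refine integrableOn_const ?_
    rw [Measure.restrict_apply (measurableSet_lt (Ac_meas hub) measurable_const), inter_comm]
    exact hfin
  have e2 : ∫ l in Nr w, (1 - Ac w l) ≤ ∫ t in Ico (0:ℝ) 1, w t := by
    rw [← Ac_int_eq h0 hw hub]
    refine setIntegral_mono_set (Ac_int h0 hw hub hC) ?_ (Eventually.of_forall fun l h => h.1)
    exact Eventually.of_forall fun l => by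
      have := Ac_lt_one hub l
      show (0:ℝ) ≤ 1 - Ac w l
      linarith
  have hmono : ∫ l in Nr w, ((1 / 2 * ({l | Ac w l < Real.exp (-δ)}.indicator (fun _ => (1:ℝ)) l) -
      |bb| * (1 - Ac w l) - D * (1 - Ac w l) ^ q) * ∫ u, gt δ u) ≤ ∫ l in Nr w, σ * Dl (sm Lf δ) w u₀ l := by
    refine setIntegral_mono_on ((((i1.const_mul _).sub (hgi.const_mul _)).sub (hqi.const_mul _)).mul_const _)
      (hDi.const_mul _) (Nr_meas hub) fun l hl => ?_
    have h1 := levelL hCH hH hP hδ hδ4 hl.2 (Ac_lt_one hub l)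
    have h2 := hY (Ac w l) hl.2 (Ac_lt_one hub l)
    have e3 : ({l | Ac w l < Real.exp (-δ)}.indicator (fun _ => (1:ℝ)) l) =
        if Ac w l < Real.exp (-δ) then 1 else 0 := by
      simp only [Set.indicator, mem_setOf_eq]
    rw [e3]
    refine le_trans ?_ h1
    have h3 : (1 / 2 * (if Ac w l < Real.exp (-δ) then 1 else 0) - |bb| * (1 - Ac w l) - D * (1 - Ac w l) ^ q) *
        (∫ u, gt δ u) = (1 / 2 * (if Ac w l < Real.exp (-δ) then 1 else 0) - |bb| * (1 - Ac w l)) * (∫ u, gt δ u) -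
        D * (1 - Ac w l) ^ q * ∫ u, gt δ u := by ring
    rw [h3]
    linarith
  have i2 : IntegrableOn (fun l => 1 / 2 * ({l | Ac w l < Real.exp (-δ)}.indicator (fun _ => (1:ℝ)) l) -
      |bb| * (1 - Ac w l)) (Nr w) := (i1.const_mul _).sub (hgi.const_mul _)
  rw [integral_mul_const, integral_sub i2 (hqi.const_mul _), integral_sub (i1.const_mul _) (hgi.const_mul _),
    integral_const_mul, integral_const_mul, e1, integral_const_mul, integral_const_mul] at hmono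
  refine le_trans (mul_le_mul_of_nonneg_right ?_ hI) hmono
  have := mul_le_mul_of_nonneg_left e2 (abs_nonneg bb)
  linarith

end Pool.Agent.Helper90.EL
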